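import Pool.Agent.H39.RT.Def

/-!
# [H39 RT Def2] THEOREM R (MP_e49dc9_ag): more definitions of the final statement

* `FibP ν T`: at the nonzero nef classes of divisors `D` with `D . D . D = 0` the nef cone is rational polyhedral, and `D` is
  effective if `D . D = 0`.
* `ThrR ν T`: the nef thresholds are rational, or `Y` is fibred over a curve (THEOREM Q).
-/

set_option autoImplicit false

namespace Pool.Agent.H39.RT

open Pool.Agent.H54.RV Pool.Agent.H83.TU Pool.Agent.H20.TD Pool.Agent.H39.TZ Pool.Agent.H39.TQ Pool.Agent.H20.TP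

variable {k K : Type} [Field k] [Field K] [Algebra k K] {X : Mod k K} {r : ℕ}
  (ν : Cart X →* Multiplicative (Fin r → ℤ))

/-- at each divisor `D` with a nonzero nef class and `D . D . D = 0` the nef cone is rational polyhedral, and `D` is effective
if `D . D = 0` -/
def FibP (T : (Fin r → ℝ) → (Fin r → ℝ) → (Fin r → ℝ) → ℝ) : Prop :=
  ∀ D : Cart X, cR ν D ∈ closure (AmpR ν) → cR ν D ≠ 0 → T (cR ν D) (cR ν D) (cR ν D) = 0 →
    RatAt ν (cR ν D) ∧ (T (cR ν D) (cR ν D) = 0 → EffR ν (cR ν D))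

/-- for ample `A` and any `D` the infimum `s` of the `a / b` with `b ≥ 1` and `a A + b D` ample is rational, or there are
infinitely many pairwise disjoint prime divisors `F i` as in `Fib`, `Bd` -/
def ThrR (T : (Fin r → ℝ) → (Fin r → ℝ) → (Fin r → ℝ) → ℝ) : Prop :=
  ∃ T₀ : Cart X → Cart X → Cart X → ℤ, (∀ U V W, T (cR ν U) (cR ν V) (cR ν W) = T₀ U V W) ∧
    ∀ A D : Cart X, Ample A → ∃ s : ℝ, IsGLB {x : ℝ | ∃ a b : ℤ, 0 < b ∧ x = a / b ∧ Ample (A ^ a * D ^ b)} s ∧
      ((∃ q : ℚ, s = q) ∨ ∃ F : ℕ → Cart X, Fib T₀ F ∧ Bd T₀ A D s F)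

end Pool.Agent.H39.RT
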