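import Pool.Agent.H39.RT.Hull

/-!
# [H39 RT Loc] THEOREM R (MP_e49dc9_ag): closed convex cones which are rational polyhedral near the rational points

`N`: a convex cone.  `RAt N p`: near `p` it is defined by finitely many integral functionals.
`RIn N p`: `p` is in the interior of `N` in the smallest rational subspace which contains `p`.

`rat_of_in`: if `RIn N p`, `p ≠ 0`, and `RAt N d` for all nonzero integral `d ∈ N`, then `RAt N p`.
`loc_of_rat`: the local form which is used by `glob`.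
-/

set_option autoImplicit false

namespace Pool.Agent.H39.RT

open Pool.Agent.H20.TD Pool.Agent.H20.TP Pool.Agent.H39.TZ Pool.Agent.H39.TQ Pool.Agent.H89.ZN Pool.Agent.H83.DC Pool.Agent.H20.FV

variable {r : ℕ} {N : Set (Fin r → ℝ)} {p p0 : Fin r → ℝ}

/-- near `p` the set `N` is defined by finitely many integral functionals -/
def RAt (N : Set (Fin r → ℝ)) (p : Fin r → ℝ) : Prop :=
  ∃ (F : Finset (Fin r → ℤ)) (e : ℝ), 0 < e ∧ ∀ q, ‖q - p‖ < e → (q ∈ N ↔ ∀ φ ∈ F, 0 ≤ rv φ ⬝ᵥ q)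

/-- all `y` near `p` which are killed by all the integral functionals which kill `p` are in `N` -/
def RIn (N : Set (Fin r → ℝ)) (p : Fin r → ℝ) : Prop :=
  ∃ e : ℝ, 0 < e ∧ ∀ y : Fin r → ℝ, (∀ φ : Fin r → ℤ, rv φ ⬝ᵥ p = 0 → rv φ ⬝ᵥ y = 0) → ‖y - p‖ < e → y ∈ N

/-- convex cones -/
structure CCo (N : Set (Fin r → ℝ)) : Prop where
  add : ∀ u ∈ N, ∀ v ∈ N, u + v ∈ N
  smul : ∀ c : ℝ, 0 ≤ c → ∀ u ∈ N, c • u ∈ N

/-- normal form: only the functionals which kill `p` -/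
theorem rat_norm (hN : CCo N) (hp : p ∈ N) (h : RAt N p) :
    ∃ (F : Finset (Fin r → ℤ)) (e : ℝ), 0 < e ∧ (∀ φ ∈ F, rv φ ⬝ᵥ p = 0) ∧ (∀ φ ∈ F, ∀ q ∈ N, 0 ≤ rv φ ⬝ᵥ q) ∧
      ∀ q, ‖q - p‖ < e → (∀ φ ∈ F, 0 ≤ rv φ ⬝ᵥ q) → q ∈ N := by
  classical
  obtain ⟨F, e, he, hF⟩ := h
  have h1 : ∀ φ ∈ F, 0 ≤ rv φ ⬝ᵥ p := (hF p (by rwa [sub_self, norm_zero])).1 hp
  have hcont : ∀ φ : Fin r → ℤ, Continuous fun q : Fin r → ℝ => rv φ ⬝ᵥ q := fun φ => by
    unfold dotProduct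
    fun_prop
  have h2 : ∀ᶠ q in nhds p, ∀ φ ∈ F, 0 < rv φ ⬝ᵥ p → 0 < rv φ ⬝ᵥ q := by
    rw [Filter.eventually_all_finset]
    intro φ _
    by_cases h3 : 0 < rv φ ⬝ᵥ p
    · filter_upwards [(isOpen_lt continuous_const (hcont φ)).mem_nhds h3] with q hq _
      exact hq
    · exact Filter.Eventually.of_forall fun q h4 => absurd h4 h3
  obtain ⟨e', he', h3⟩ := Metric.eventually_nhds_iff.1 h2
  refine ⟨F.filter fun φ => rv φ ⬝ᵥ p = 0, min e e', lt_min he he', fun φ hφ => (Finset.mem_filter.1 hφ).2,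
    fun φ hφ q hq => ?_, fun q hq h4 => ?_⟩
  · obtain ⟨hφ1, hφ2⟩ := Finset.mem_filter.1 hφ
    obtain ⟨s, hs⟩ : ∃ s : ℝ, s = min 1 (e / (2 * (‖q - p‖ + 1))) := ⟨_, rfl⟩
    have hn := norm_nonneg (q - p)
    have hs0 : 0 < s := by
      rw [hs]
      exact lt_min one_pos (by positivity)
    have hs1 : s ≤ 1 := by
      rw [hs]
      exact min_le_left _ _
    have hs2 : s ≤ e / (2 * (‖q - p‖ + 1)) := by
      rw [hs]
      exact min_le_right _ _
    have h5 : (1 - s) • p + s • q ∈ N := hN.add _ (hN.smul _ (by linarith) _ hp) _ (hN.smul _ hs0.le _ hq)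
    have h6 : ‖(1 - s) • p + s • q - p‖ < e := by
      have e1 : (1 - s) • p + s • q - p = s • (q - p) := by module
      rw [e1, norm_smul, Real.norm_eq_abs, abs_of_pos hs0]
      calc s * ‖q - p‖ ≤ e / (2 * (‖q - p‖ + 1)) * (‖q - p‖ + 1) := mul_le_mul hs2 (by linarith) hn (by positivity)
        _ = e / 2 := by field_simp
        _ < e := by linarith
    have h7 := (hF _ h6).1 h5 φ hφ1
    rw [dotProduct_add, dotProduct_smul, dotProduct_smul, hφ2, smul_zero, zero_add, smul_eq_mul] at h7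
    exact (mul_nonneg_iff_of_pos_left hs0).1 h7
  · refine (hF q (hq.trans_le (min_le_left _ _))).2 fun φ hφ => ?_
    rcases (h1 φ hφ).lt_or_eq with h5 | h5
    · exact (h3 (by
        rw [dist_eq_norm]
        exact hq.trans_le (min_le_right _ _)) φ hφ h5).le
    · exact h4 φ (Finset.mem_filter.2 ⟨hφ, h5.symm⟩)

/-- two points in the relative interior of the same face -/
theorem rat_move (hN : CCo N) (hp0 : p0 ∈ N) (h : RAt N p0) (h1 : (2 : ℝ) • p - p0 ∈ N) (h2 : (2 : ℝ) • p0 - p ∈ N) :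
    RAt N p := by
  obtain ⟨F, e, he, hF0, hF1, hF2⟩ := rat_norm hN hp0 h
  have hpN : p ∈ N := by
    have h3 := hN.smul (1 / 2) (by norm_num) _ (hN.add _ h1 _ hp0)
    have e1 : (1 / 2 : ℝ) • ((2 : ℝ) • p - p0 + p0) = p := by
      rw [sub_add_cancel, smul_smul]
      norm_num
    rwa [e1] at h3
  have hFp : ∀ φ ∈ F, rv φ ⬝ᵥ p = 0 := by
    intro φ hφ
    have h3 := hF1 φ hφ _ h2
    rw [dotProduct_sub, dotProduct_smul, hF0 φ hφ, smul_zero, zero_sub] at h3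
    exact le_antisymm (by linarith) (hF1 φ hφ _ hpN)
  refine ⟨F, e / 2, by positivity, fun q hq => ⟨fun hqN φ hφ => hF1 φ hφ q hqN, fun h3 => ?_⟩⟩
  have h4 : p0 + (2 : ℝ) • (q - p) ∈ N := by
    refine hF2 _ ?_ fun φ hφ => ?_
    · rw [add_sub_cancel_left, norm_smul, Real.norm_eq_abs, abs_of_pos (by norm_num : (0 : ℝ) < 2)]
      linarith
    · rw [dotProduct_add, dotProduct_smul, dotProduct_sub, hF0 φ hφ, hFp φ hφ, zero_add, sub_zero, smul_eq_mul]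
      have := h3 φ hφ
      positivity
  have h5 := hN.smul (1 / 2) (by norm_num) _ (hN.add _ h1 _ h4)
  have e1 : (1 / 2 : ℝ) • ((2 : ℝ) • p - p0 + (p0 + (2 : ℝ) • (q - p))) = q := by
    have : (2 : ℝ) • p - p0 + (p0 + (2 : ℝ) • (q - p)) = (2 : ℝ) • q := by module
    rw [this, smul_smul]
    norm_num
  rwa [e1] at h5

theorem rat_smul (hN : CCo N) {c : ℝ} (hc : 0 < c) (h : RAt N p) : RAt N (c • p) := by
  obtain ⟨F, e, he, hF⟩ := h
  refine ⟨F, c * e, by positivity, fun q hq => ?_⟩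
  have h1 : ‖c⁻¹ • q - p‖ < e := by
    have e1 : c⁻¹ • q - p = c⁻¹ • (q - c • p) := by
      rw [smul_sub, smul_smul, inv_mul_cancel₀ hc.ne', one_smul]
    rw [e1, norm_smul, Real.norm_eq_abs, abs_of_pos (inv_pos.2 hc), inv_mul_lt_iff₀ hc]
    exact hq
  have h2 : c⁻¹ • q ∈ N ↔ q ∈ N := by
    constructor
    · intro h3
      have h4 := hN.smul c hc.le _ h3
      rwa [smul_smul, mul_inv_cancel₀ hc.ne', one_smul] at h4
    · exact fun h3 => hN.smul _ (inv_pos.2 hc).le _ h3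
  rw [← h2, hF _ h1]
  refine forall₂_congr fun φ _ => ?_
  rw [dotProduct_smul, smul_eq_mul]
  exact mul_nonneg_iff_of_pos_left (inv_pos.2 hc)

/-- rational points near `p` in the smallest rational subspace -/
theorem exists_rat (p : Fin r → ℝ) {e : ℝ} (he : 0 < e) : ∃ (d : Fin r → ℤ) (x : ℝ), 0 < x ∧
    ‖x⁻¹ • rv d - p‖ < e ∧ ∀ φ : Fin r → ℤ, rv φ ⬝ᵥ p = 0 → rv φ ⬝ᵥ rv d = 0 := by
  classical
  obtain ⟨m, q, c, hlin, hy⟩ := red_lin p
  obtain ⟨g, hg⟩ : ∃ g : Fin m → Fin r → ℤ, g = fun i j => c j i := ⟨_, rfl⟩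
  have hpg : p = ∑ i, q i • rv (g i) := by
    funext j
    rw [Finset.sum_apply, hy j]
    refine Finset.sum_congr rfl fun i _ => ?_
    rw [Pi.smul_apply, smul_eq_mul, hg]
    show (c j i : ℝ) * q i = q i * ((c j i : ℤ) : ℝ)
    ring
  have hφ : ∀ φ : Fin r → ℤ, rv φ ⬝ᵥ p = 0 → ∀ i, (∑ j, φ j * g i j : ℤ) = 0 := by
    intro φ h1
    rw [hpg, dot_sum] at h1
    have h2 := hlin (fun i => ∑ j, φ j * g i j) (by
      rw [← h1]
      exact Finset.sum_congr rfl fun i _ => mul_comm _ _)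
    exact fun i => congrFun h2 i
  obtain ⟨S, hS⟩ : ∃ S : ℝ, S = ∑ i, ‖rv (g i)‖ := ⟨_, rfl⟩
  have hS0 : 0 ≤ S := by rw [hS]; positivity
  obtain ⟨x, hx⟩ : ∃ x : ℝ, x = (S + 1) / e := ⟨_, rfl⟩
  have hxp : 0 < x := by rw [hx]; positivity
  obtain ⟨n, hn⟩ : ∃ n : Fin m → ℤ, n = fun i => round (x * q i) := ⟨_, rfl⟩
  obtain ⟨d, hd⟩ : ∃ d : Fin r → ℤ, d = ∑ i, n i • g i := ⟨_, rfl⟩
  have hrd : rv d = ∑ i, (n i : ℝ) • rv (g i) := by
    funext j
    rw [hd]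
    simp [rv, Finset.sum_apply]
  refine ⟨d, x, hxp, ?_, fun φ h1 => ?_⟩
  · have h2 : x⁻¹ • rv d - p = ∑ i, (x⁻¹ * (n i - x * q i)) • rv (g i) := by
      rw [hrd, hpg, Finset.smul_sum, ← Finset.sum_sub_distrib]
      refine Finset.sum_congr rfl fun i _ => ?_
      rw [smul_smul, ← sub_smul]
      congr 1
      field_simp
    rw [h2]
    calc ‖∑ i, (x⁻¹ * (n i - x * q i)) • rv (g i)‖ ≤ ∑ i, ‖(x⁻¹ * (n i - x * q i)) • rv (g i)‖ := norm_sum_le _ _
      _ ≤ ∑ i, x⁻¹ * ‖rv (g i)‖ := Finset.sum_le_sum fun i _ => by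
          rw [norm_smul, norm_mul, Real.norm_eq_abs, Real.norm_eq_abs, abs_of_pos (inv_pos.2 hxp)]
          refine mul_le_mul_of_nonneg_right ?_ (norm_nonneg _)
          refine mul_le_of_le_one_right (inv_pos.2 hxp).le ?_
          rw [hn, abs_sub_comm]
          exact (abs_sub_round _).trans (by norm_num)
      _ = x⁻¹ * S := by rw [← Finset.mul_sum, hS]
      _ < e := by
          rw [inv_mul_lt_iff₀ hxp, hx, div_mul_cancel₀ _ he.ne']
          linarith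
  · rw [hrd, dot_sum, Finset.sum_eq_zero]
    intro i _
    rw [hφ φ h1 i, Int.cast_zero, mul_zero]

/-- **the local structure at a point which is in the interior in its rational span** -/
theorem rat_of_in (hN : CCo N) (h : RIn N p) (hp : p ≠ 0)
    (hR : ∀ d : Fin r → ℤ, rv d ∈ N → rv d ≠ 0 → RAt N (rv d)) : RAt N p := by
  obtain ⟨e, he, hb⟩ := h
  have hn := norm_pos_iff.2 hp
  obtain ⟨d, x, hx, h1, h2⟩ := exists_rat p (lt_min (half_pos he) hn)
  have h3 := h1.trans_le (min_le_left _ _)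
  have h4 := h1.trans_le (min_le_right _ _)
  have h0 : rv d ≠ 0 := by
    intro h0
    rw [h0, smul_zero, zero_sub, norm_neg] at h4
    exact lt_irrefl _ h4
  have h5 : x⁻¹ • rv d ∈ N := hb _ (fun φ hφ => by rw [dotProduct_smul, h2 φ hφ, smul_zero]) (by linarith)
  have h6 : rv d ∈ N := by
    have h6 := hN.smul x hx.le _ h5
    rwa [smul_smul, mul_inv_cancel₀ hx.ne', one_smul] at h6
  refine rat_move hN h5 (rat_smul hN (inv_pos.2 hx) (hR d h6 h0)) ?_ ?_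
  · refine hb _ (fun φ hφ => ?_) ?_
    · rw [dotProduct_sub, dotProduct_smul, dotProduct_smul, h2 φ hφ, hφ, smul_zero, smul_zero, sub_zero]
    · have e1 : (2 : ℝ) • p - x⁻¹ • rv d - p = -(x⁻¹ • rv d - p) := by module
      rw [e1, norm_neg]
      linarith
  · refine hb _ (fun φ hφ => ?_) ?_
    · rw [dotProduct_sub, dotProduct_smul, dotProduct_smul, h2 φ hφ, hφ, smul_zero, smul_zero, sub_zero]
    · have e1 : (2 : ℝ) • x⁻¹ • rv d - p - p = (2 : ℝ) • (x⁻¹ • rv d - p) := by module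
      rw [e1, norm_smul, Real.norm_eq_abs, abs_of_pos (by norm_num : (0 : ℝ) < 2)]
      linarith

/-- the local form which is used by `glob` -/
theorem loc_of_rat {C : Set (Fin r → ℝ)} {a : Fin r → ℤ} {L : (Fin r → ℝ) →ₗ[ℝ] ℝ} (hd : Dir C (rv a) L)
    (hN : CCo (closure C)) (hp : p ∈ closure C) (h : RAt (closure C) p) :
    ∃ (η : ℝ) (F : Set (Fin r → ℤ)), 0 < η ∧ F.Finite ∧ (∀ φ ∈ F, 0 < rv φ ⬝ᵥ rv a) ∧
      ∀ q ∈ closure C, ‖q - p‖ < η → q ∈ C ∨ ∃ φ ∈ F, rv φ ⬝ᵥ q = 0 := by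
  classical
  obtain ⟨F, e, he, hF0, hF1, hF2⟩ := rat_norm hN hp h
  have hcont : ∀ φ : Fin r → ℤ, Continuous fun q : Fin r → ℝ => rv φ ⬝ᵥ q := fun φ => by
    unfold dotProduct
    fun_prop
  -- a functional which is nonnegative on `C` and kills `a` is zero
  have hz : ∀ φ ∈ F, rv φ ⬝ᵥ rv a ≤ 0 → ∀ q, rv φ ⬝ᵥ q = 0 := by
    intro φ hφ h1 q
    have h2 : rv φ ⬝ᵥ rv a = 0 := le_antisymm h1 (hF1 φ hφ _ (subset_closure hd.ha))
    obtain ⟨ε, h3, h4⟩ := hd.toOC.sub_small hd.ha q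
    have h5 := hF1 φ hφ _ (subset_closure (h4 ε (by rw [abs_of_pos h3])))
    have h6 := hF1 φ hφ _ (subset_closure (h4 (-ε) (by rw [abs_neg, abs_of_pos h3])))
    rw [dotProduct_add, dotProduct_smul, h2, zero_add, smul_eq_mul] at h5 h6
    have h7 : 0 ≤ rv φ ⬝ᵥ q := (mul_nonneg_iff_of_pos_left h3).1 h5
    nlinarith
  refine ⟨e, {φ | φ ∈ F ∧ 0 < rv φ ⬝ᵥ rv a}, he, F.finite_toSet.subset fun φ hφ => hφ.1, fun φ hφ => hφ.2,
    fun q hq hqe => ?_⟩
  by_contra hcon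
  push Not at hcon
  obtain ⟨hqC, hne⟩ := hcon
  have h1 : ∀ φ ∈ F, 0 < rv φ ⬝ᵥ rv a → 0 < rv φ ⬝ᵥ q := fun φ hφ h2 =>
    lt_of_le_of_ne (hF1 φ hφ q hq) (hne φ ⟨hφ, h2⟩).symm
  have h2 : ∀ᶠ z in nhds q, z ∈ closure C := by
    have h3 : ∀ᶠ z in nhds q, ∀ φ ∈ F, 0 ≤ rv φ ⬝ᵥ z := by
      rw [Filter.eventually_all_finset]
      intro φ hφ
      by_cases h4 : 0 < rv φ ⬝ᵥ rv a
      · filter_upwards [(isOpen_lt continuous_const (hcont φ)).mem_nhds (h1 φ hφ h4)] with z hz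
        exact le_of_lt hz
      · exact Filter.Eventually.of_forall fun z => (hz φ hφ (not_lt.1 h4) z).ge
    have h4 : ∀ᶠ z in nhds q, ‖z - p‖ < e :=
      (isOpen_lt (by fun_prop : Continuous fun z : Fin r → ℝ => ‖z - p‖) continuous_const).mem_nhds hqe
    filter_upwards [h3, h4] with z hz1 hz2
    exact hF2 z hz2 hz1
  refine hqC ?_
  -- `q` is in the interior of the closure
  obtain ⟨ε, hε, hball⟩ := Metric.eventually_nhds_iff.1 h2
  have h3 : q + (-(ε / (2 * (‖rv a‖ + 1)))) • rv a ∈ closure C := by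
    refine hball ?_
    rw [dist_eq_norm, add_sub_cancel_left, norm_smul, norm_neg, Real.norm_eq_abs, abs_of_pos (by positivity)]
    have hn := norm_nonneg (rv a)
    calc ε / (2 * (‖rv a‖ + 1)) * ‖rv a‖ ≤ ε / (2 * (‖rv a‖ + 1)) * (‖rv a‖ + 1) :=
          mul_le_mul_of_nonneg_left (by linarith) (by positivity)
      _ = ε / 2 := by field_simp
      _ < ε := by linarith
  have h4 := hd.toOC.add_cl (hd.toOC.smul (ε / (2 * (‖rv a‖ + 1))) (by positivity) _ hd.ha) h3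
  have e1 : (ε / (2 * (‖rv a‖ + 1))) • rv a + (q + (-(ε / (2 * (‖rv a‖ + 1)))) • rv a) = q := by module
  rwa [e1] at h4

end Pool.Agent.H39.RT
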