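import Pool.Agent.H39.RT.Fin
import Pool.Agent.H39.RT.Def2
import Pool.Agent.H39.RT.Loc

/-!
# [H39 RT Fin2] THEOREM R (MP_e49dc9_ag): the cone conjecture, from the local structure at the rational classes

`r_fin2`: the final statement.
-/

set_option autoImplicit false

namespace Pool.Agent.H39.RT

open AlgebraicGeometry Pool.Agent.H54.RV Pool.Agent.H83.TU Pool.Agent.H83.TK Pool.Agent.H20.TD Pool.Agent.H20.TP
  Pool.Agent.H39.TZ Pool.Agent.H39.TQ Pool.Agent.H20.RT Pool.Agent.H32.TN Pool.Agent.H57.KM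
open Pool.Agent.H24.VP (RR chS)

section gen

variable {k K : Type} [Field k] [Field K] [Algebra k K] {X : Mod k K} {r : ℕ}
  {ν : Cart X →* Multiplicative (Fin r → ℤ)} {T : Cart X → Cart X → Cart X → ℝ} {l₀ : Cart X → ℝ} {c : ℝ}
  {TR : Tri3 r} {l : (Fin r → ℝ) →ₗ[ℝ] ℝ} {p : Fin r → ℝ}

theorem effr_add {u v : Fin r → ℝ} (hu : Pool.Agent.H39.TZ.EffR ν u) (hv : Pool.Agent.H39.TZ.EffR ν v) :
    Pool.Agent.H39.TZ.EffR ν (u + v) := by
  obtain ⟨m, a, E, h1, h2⟩ := hu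
  obtain ⟨n, b, G, h3, h4⟩ := hv
  refine ⟨m + n, Fin.append a b, Fin.append E G, fun i => ?_, ?_⟩
  · refine Fin.addCases (fun i => ?_) (fun i => ?_) i
    · rw [Fin.append_left, Fin.append_left]
      exact h1 i
    · rw [Fin.append_right, Fin.append_right]
      exact h3 i
  · rw [Fin.sum_univ_add, h2, h4]
    simp only [Fin.append_left, Fin.append_right]

theorem effr_smul {t : ℝ} (ht : 0 ≤ t) {u : Fin r → ℝ} (hu : Pool.Agent.H39.TZ.EffR ν u) :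
    Pool.Agent.H39.TZ.EffR ν (t • u) := by
  obtain ⟨m, a, E, h1, h2⟩ := hu
  refine ⟨m, fun i => t * a i, E, fun i => ⟨mul_nonneg ht (h1 i).1, (h1 i).2⟩, ?_⟩
  rw [h2, Finset.smul_sum]
  exact Finset.sum_congr rfl fun i _ => by rw [smul_smul]

theorem cco_nef (hX : IsVar X) (hν : NumR ν) : CCo (closure (AmpR ν)) := by
  rw [cl_eq hX hν]
  refine ⟨fun u hu v hv => map_mem_closure₂ continuous_add hu hv fun a ha b hb => cc_add hX hν ha hb,
    fun c hc u hu => cl_smul hc hu⟩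

/-- the nef cone is defined by finitely many integral functionals, if this holds locally -/
theorem poly_loc [CharZero k] [IsAlgClosed k] [T0Space X.P] (h : Hyp X) (hr : RR T l₀ c) (hν : NumR ν)
    (hloc : ∀ p ∈ closure (AmpR ν), p ≠ 0 → RAt (closure (AmpR ν)) p) :
    ∃ F : Finset (Fin r → ℤ), closure (AmpR ν) = {v | ∀ φ ∈ F, 0 ≤ rv φ ⬝ᵥ v} := by
  obtain ⟨A, hA⟩ := h.amp
  obtain ⟨L, -, hd⟩ := cc_dir h.var hν (l := fun D => T D A A) (fun U V => hr.tri.add U V A A)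
    (fun B hB => Pool.Agent.H24.VP.pos_amp h hr hB hA hA) hA
  have hN := cco_nef h.var hν
  rw [cl_eq h.var hν] at hloc hN ⊢
  obtain ⟨F, h1, h2, h3⟩ := glob (C := CC ν) (a := ci ν A) (fun c hc x hx => cc_smul hc hx)
    (fun c hc x hx => cl_smul hc.le hx) fun p hp hp0 => loc_of_rat hd hN hp (hloc p hp hp0)
  refine poly_of hd h1 h2 fun q hq hq0 => ?_
  rw [isClosed_closure.frontier_eq] at hq
  rcases h3 q hq.1 hq0 with h4 | h4
  · refine absurd ?_ hq.2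
    exact interior_mono subset_closure (by rw [(cc_open (ν := ν)).interior_eq]; exact h4)
  · exact h4

/-- the integral nef classes -/
theorem fib_int [CharZero k] [IsAlgClosed k] [T0Space X.P] (h : Hyp X) (hr : RR T l₀ c) (hν : NumR ν)
    (hT : ∀ U V W, TR (Pool.Agent.H20.TP.cR ν U) (Pool.Agent.H20.TP.cR ν V) (Pool.Agent.H20.TP.cR ν W) = T U V W)
    (hint : ∀ U V W, ∃ z : ℤ,
      TR (Pool.Agent.H20.TP.cR ν U) (Pool.Agent.H20.TP.cR ν V) (Pool.Agent.H20.TP.cR ν W) = z)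
    (hl : ∀ D, l (Pool.Agent.H20.TP.cR ν D) = l₀ D) (hlp : ∀ p ∈ closure (AmpR ν), p ≠ 0 → 0 < l p)
    (hF : FibP ν (pl TR)) (d : Fin r → ℤ) (hd : rv d ∈ closure (AmpR ν)) :
    Pool.Agent.H39.TZ.EffR ν (rv d) ∧ (rv d ≠ 0 → RAt (closure (AmpR ν)) (rv d)) := by
  obtain ⟨D, hD⟩ := ci_surj hν d
  have hD' : rv d = Pool.Agent.H20.TP.cR ν D := by
    rw [← hD]
  rw [hD'] at hd ⊢
  by_cases h0 : Pool.Agent.H20.TP.cR ν D = 0
  · rw [h0]
    exact ⟨effr_zero, fun h1 => absurd rfl h1⟩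
  rcases (cube_nn h hr hT hd).lt_or_eq with h3 | h3
  · exact ⟨effr_of_big h hr hν hT hd h3, fun _ => loc_poly h hr hν hT hd h3⟩
  · obtain ⟨h4, h5⟩ := hF D hd h0 h3.symm
    refine ⟨?_, fun _ => h4⟩
    by_cases hpp : TR (Pool.Agent.H20.TP.cR ν D) (Pool.Agent.H20.TP.cR ν D) = 0
    · exact h5 (pl_zero.2 hpp)
    · rcases z_irr h hν hr hT hl hd (hlp _ hd h0) hpp with h6 | ⟨-, -, h6⟩
      · exact h6
      · exact absurd ⟨TR (Pool.Agent.H20.TP.cR ν D) (Pool.Agent.H20.TP.cR ν D), 1, fun E => hint D D E,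
          fun v => (one_mul _).symm⟩ h6

end gen

variable {Y : Scheme.{0}} [IsIntegral Y] (f : Y ⟶ Spec (.of ℂ)) [IsProper f]

/-- **THEOREM R** -/
theorem r_fin2 [T0Space (mdl f).P] (h : Hyp (mdl f)) {r : ℕ} {ν : Cart (mdl f) →* Multiplicative (Fin r → ℤ)}
    (hν : NumR ν) (hH : HypH (mdl f))
    (hR : ∀ (T : Cart (mdl f) → Cart (mdl f) → Cart (mdl f) → ℝ) (l₀ : Cart (mdl f) → ℝ) (c : ℝ) (TR : Tri3 r)
      (l : (Fin r → ℝ) →ₗ[ℝ] ℝ), RR T l₀ c →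
      (∀ U V W, TR (Pool.Agent.H20.TP.cR ν U) (Pool.Agent.H20.TP.cR ν V) (Pool.Agent.H20.TP.cR ν W) = T U V W) →
        (∀ D, l (Pool.Agent.H20.TP.cR ν D) = l₀ D) → ∀ p ∈ closure (AmpR ν), 0 < l p → MainR ν TR p) :
    ∃ (T : (Fin r → ℝ) → (Fin r → ℝ) → (Fin r → ℝ) → ℝ) (l : (Fin r → ℝ) → ℝ) (c : ℝ), HilbF ν T l c ∧
      (∀ p ∈ closure (AmpR ν), 0 < l p → RatIn ν p ∨ IrrF ν T p) ∧
      ((∀ p ∈ closure (AmpR ν), p ≠ 0 → 0 < l p ∧ ¬ IrrF ν T p) → NefC (mdl f) ⊆ NefP (mdl f) ∧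
        (FibP ν T → NefC (mdl f) ⊆ EffC (mdl f) ∧ RatPolyC (NefC (mdl f)) ∧ Q1Y f)) ∧
      ThrR ν T := by
  obtain ⟨T₀, l₀, c, T, l, hT₀, hT, hl, hHR⟩ := exists_hilbR h hν hH
  have hr := hT₀.rr
  obtain ⟨b, hb'⟩ := exists_b h.var h.amp hν (nt_of h hr hν hT (nak_r h hr hν hT))
  have hM : ∀ p ∈ closure (AmpR ν), 0 < l p → RatIn ν p ∨ IrrF ν (pl T) p := fun p hp hlp =>
    of_main (hR _ _ _ _ _ hr hT hl p hp hlp)
  refine ⟨pl T, l, c, hilbF_of hHR, hM, fun hH' => ⟨?_, fun hF => ?_⟩, T₀, hT, fun A D hA => ?_⟩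
  · have := fd_of_basis h.var b
    intro x hx
    obtain ⟨v, rfl⟩ := (pt_bij h.var b).2 x
    rw [← pt_nef h.var hb'] at hx
    by_cases h0 : v = 0
    · rw [h0, Pool.Agent.H83.DC.pt_zero]
      exact np_zero h.var h.amp
    · obtain ⟨h1, h2⟩ := hH' v hx h0
      exact ratin_np h.var h.amp hν hb' ((hM v hx h1).resolve_right h2)
  · have hin : ∀ p ∈ closure (AmpR ν), p ≠ 0 → RatIn ν p := fun p hp h0 =>
      (hM p hp (hH' p hp h0).1).resolve_right (hH' p hp h0).2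
    have hint := fib_int h hr hν hT hHR.int hl (fun p hp h0 => (hH' p hp h0).1) hF
    have hN := cco_nef h.var hν
    have hNE : NefC (mdl f) ⊆ EffC (mdl f) := nefc_effc h.var hb' fun p hp => by
      by_cases h0 : p = 0
      · rw [h0]
        exact effr_zero
      · exact ratin_cone h.var hν (C := {v | Pool.Agent.H39.TZ.EffR ν v}) effr_zero (fun u hu v hv => effr_add hu hv)
          (fun c hc u hu => effr_smul hc hu) (fun d hd => (hint d hd).1) (hin p hp h0)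
    obtain ⟨F, hF'⟩ := poly_loc h hr hν fun p hp h0 =>
      rat_of_in hN (hin p hp h0) h0 fun d hd hd0 => (hint d hd).2 hd0
    obtain ⟨h1, -, h2⟩ := Pool.Agent.H39.TP.q1_poly f h.amp b F (by
      rw [pt_amp h.var hb']
      exact hF') fun D hD => hNE hD
    exact ⟨hNE, h1, h2⟩
  · exact thr_all h hT₀ ν (fun D hD => (hν.ker D).1 hD) A D hA

end Pool.Agent.H39.RT
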