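import Pool.Agent.H39.TZ.Def3

/-!
# [H39 RT Def] THEOREM R (MP_e49dc9_ag): the definitions of the final statement

* `RatIn ν p`: `p` is in the interior of the nef cone in the smallest rational subspace which contains `p`.
* `IrrF ν T p`: the exception: a family of surfaces, and `p . p` is not a multiple of an integral class.
-/

set_option autoImplicit false

namespace Pool.Agent.H39.RT

open Pool.Agent.H54.RV Pool.Agent.H83.TU Pool.Agent.H20.TD Pool.Agent.H39.TZ

variable {k K : Type} [Field k] [Field K] [Algebra k K] {X : Mod k K} {r : ℕ}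
  (ν : Cart X →* Multiplicative (Fin r → ℤ))

/-- all `y` near `p` which are killed by all the integral functionals which kill `p` are nef -/
def RatIn (p : Fin r → ℝ) : Prop :=
  ∃ e : ℝ, 0 < e ∧ ∀ y : Fin r → ℝ, (∀ φ : Fin r → ℤ, rv φ ⬝ᵥ p = 0 → rv φ ⬝ᵥ y = 0) → ‖y - p‖ < e →
    y ∈ closure (AmpR ν)

/-- `p . p . p = 0`, there are infinitely many prime divisors `F i` with the same intersection numbers and
`p . p . F 0 = p . F 0 . F 0 = 0`, and `p . p` is not a multiple of an integral class -/
def IrrF (T : (Fin r → ℝ) → (Fin r → ℝ) → (Fin r → ℝ) → ℝ) (p : Fin r → ℝ) : Prop :=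
  T p p p = 0 ∧ SurF ν T p ∧ ¬ SqI ν T p

end Pool.Agent.H39.RT
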