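import Pool.Agent.H39.RT.Hull
import Pool.Agent.H20.RT.Vp

/-!
# [H39 RT Fin] THEOREM R (MP_e49dc9_ag): the final statement, from the main theorem `hR`
-/

set_option autoImplicit false

namespace Pool.Agent.H39.RT

open AlgebraicGeometry Pool.Agent.H54.RV Pool.Agent.H83.TU Pool.Agent.H83.TK Pool.Agent.H20.TD Pool.Agent.H20.TP
  Pool.Agent.H39.TZ Pool.Agent.H39.TQ Pool.Agent.H20.RT Pool.Agent.H32.TN Pool.Agent.H57.KM
open Pool.Agent.H24.VP (RR chS)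

section gen

variable {k K : Type} [Field k] [Field K] [Algebra k K] {X : Mod k K} {r : ℕ}
  {ν : Cart X →* Multiplicative (Fin r → ℤ)} {TR : Tri3 r} {p : Fin r → ℝ}

variable (ν TR) in
/-- the conclusion of the main theorem at `p` -/
def MainR (p : Fin r → ℝ) : Prop :=
  (∃ e : ℝ, 0 < e ∧ ∀ y ∈ Vp p, ‖y - p‖ < e → y ∈ closure (AmpR ν)) ∨ (TR p p p = 0 ∧ FamB ν TR p ∧ ¬ SqInt ν TR p)

theorem of_main (h : MainR ν TR p) : RatIn ν p ∨ IrrF ν (pl TR) p := by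
  rcases h with ⟨e, he, hb⟩ | ⟨h1, h2, h3⟩
  · exact Or.inl ⟨e, he, fun y hy hn => hb y hy hn⟩
  · exact Or.inr ⟨h1, surF_iff.2 h2, fun h4 => h3 (sqI_of h4)⟩

end gen

variable {Y : Scheme.{0}} [IsIntegral Y] (f : Y ⟶ Spec (.of ℂ)) [IsProper f]

/-- **THEOREM R** -/
theorem r_fin [T0Space (mdl f).P] (h : Hyp (mdl f)) {r : ℕ} {ν : Cart (mdl f) →* Multiplicative (Fin r → ℤ)}
    (hν : NumR ν) (hH : HypH (mdl f))
    (hR : ∀ (T : Cart (mdl f) → Cart (mdl f) → Cart (mdl f) → ℝ) (l₀ : Cart (mdl f) → ℝ) (c : ℝ) (TR : Tri3 r)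
      (l : (Fin r → ℝ) →ₗ[ℝ] ℝ), RR T l₀ c →
      (∀ U V W, TR (Pool.Agent.H20.TP.cR ν U) (Pool.Agent.H20.TP.cR ν V) (Pool.Agent.H20.TP.cR ν W) = T U V W) →
        (∀ D, l (Pool.Agent.H20.TP.cR ν D) = l₀ D) → ∀ p ∈ closure (AmpR ν), 0 < l p → MainR ν TR p) :
    ∃ (T : (Fin r → ℝ) → (Fin r → ℝ) → (Fin r → ℝ) → ℝ) (l : (Fin r → ℝ) → ℝ) (c : ℝ), HilbF ν T l c ∧
      (∀ p ∈ closure (AmpR ν), 0 < l p → RatIn ν p ∨ IrrF ν T p) ∧
      ((∀ p ∈ closure (AmpR ν), p ≠ 0 → 0 < l p ∧ ¬ IrrF ν T p) → NefC (mdl f) ⊆ NefP (mdl f)) ∧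
      ∀ A D : Cart (mdl f), Ample A → ∃ s : ℝ, IsGLB (Quo A D) s ∧
        ((∃ q : ℚ, s = q) ∨ IrrF ν T (Pool.Agent.H20.TP.cR ν D + s • Pool.Agent.H20.TP.cR ν A)) := by
  obtain ⟨T₀, l₀, c, T, l, hT₀, hT, hl, hHR⟩ := exists_hilbR h hν hH
  have hr := hT₀.rr
  obtain ⟨b, hb'⟩ := exists_b h.var h.amp hν (nt_of h hr hν hT (nak_r h hr hν hT))
  have hM : ∀ p ∈ closure (AmpR ν), 0 < l p → RatIn ν p ∨ IrrF ν (pl T) p := fun p hp hlp =>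
    of_main (hR _ _ _ _ _ hr hT hl p hp hlp)
  refine ⟨pl T, l, c, hilbF_of hHR, hM, fun hH' => ?_, fun A D hA => ?_⟩
  · have := fd_of_basis h.var b
    intro x hx
    obtain ⟨v, rfl⟩ := (pt_bij h.var b).2 x
    rw [← pt_nef h.var hb'] at hx
    by_cases h0 : v = 0
    · rw [h0, Pool.Agent.H83.DC.pt_zero]
      exact np_zero h.var h.amp
    · obtain ⟨h1, h2⟩ := hH' v hx h0
      exact ratin_np h.var h.amp hν hb' ((hM v hx h1).resolve_right h2)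
  · obtain ⟨s, hs, hirr⟩ := exists_ths (D := D) h hr hT₀.pos hA
    refine ⟨s, hs, ?_⟩
    by_cases hq : ∃ q : ℚ, s = q
    · exact Or.inl hq
    right
    have ht := hirr (by
      rintro ⟨q, hq'⟩
      exact hq ⟨q, hq'.symm⟩)
    have ht' : Thr (fun U V W => (T₀ U V W : ℝ)) l₀ c A D s := ⟨ht, hr, hT₀.pos, Pool.Agent.H20.TQ.big_q h hr ht⟩
    refine (hM _ (thr_nef h.var hν ht) ?_).resolve_left (ratin_thr h.var hν ht)
    have h1 := Pool.Agent.H36.TQ.lp_pos h ht'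
    unfold Pool.Agent.H39.TQ.lp at h1
    rw [map_add, map_smul, hl, hl, smul_eq_mul]
    exact h1

end Pool.Agent.H39.RT
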