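import Pool.Agent.H39.RT.Def
import Pool.Agent.H39.TZ.Pf3
import Pool.Agent.H36.TQ.Pos
import Pool.Agent.H20.TQ.Big

/-!
# [H39 RT Hull] THEOREM R (MP_e49dc9_ag): consequences

`ratin_cone`: `RatIn ν p`: `p` is in every convex cone which contains the integral nef classes.
`ratin_np`: the class of `p` is in the convex hull of the rational nef classes.
`ratin_thr`: `D + s A` is not `RatIn` if the threshold `s` is irrational.
-/

set_option autoImplicit false

namespace Pool.Agent.H39.RT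

open Pool.Agent.H54.RV Pool.Agent.H83.TU Pool.Agent.H83.TK Pool.Agent.H20.TD Pool.Agent.H20.TP Pool.Agent.H39.TZ
  Pool.Agent.H39.TQ Pool.Agent.H89.ZN Pool.Agent.H83.DC Pool.Agent.H20.FV Pool.Agent.H57.KM
open Pool.Agent.H24.VP (RR chS)

variable {k K : Type} [Field k] [Field K] [Algebra k K] {X : Mod k K} {r : ℕ}
  {ν : Cart X →* Multiplicative (Fin r → ℤ)} {p : Fin r → ℝ}

theorem dot_sum {m : ℕ} (φ : Fin r → ℤ) (a : Fin m → ℝ) (g : Fin m → Fin r → ℤ) :
    rv φ ⬝ᵥ (∑ i, a i • rv (g i)) = ∑ i, a i * ((∑ j, φ j * g i j : ℤ) : ℝ) := by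
  rw [dotProduct_sum]
  refine Finset.sum_congr rfl fun i _ => ?_
  rw [dotProduct_smul, smul_eq_mul]
  congr 1
  unfold dotProduct rv
  push_cast
  rfl

/-- a point in the interior of its rational span is in every convex cone which contains the integral nef classes -/
theorem ratin_cone (hX : IsVar X) (hν : NumR ν) {C : Set (Fin r → ℝ)} (h0 : (0 : Fin r → ℝ) ∈ C)
    (hadd : ∀ u ∈ C, ∀ v ∈ C, u + v ∈ C) (hsmul : ∀ c : ℝ, 0 ≤ c → ∀ u ∈ C, c • u ∈ C)
    (hC : ∀ d : Fin r → ℤ, rv d ∈ closure (AmpR ν) → rv d ∈ C) (hp : RatIn ν p) : p ∈ C := by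
  classical
  obtain ⟨e, he, hb⟩ := hp
  obtain ⟨m, q, c, hlin, hy⟩ := red_lin p
  obtain ⟨g, hg⟩ : ∃ g : Fin m → Fin r → ℤ, g = fun i j => c j i := ⟨_, rfl⟩
  have hpg : p = ∑ i, q i • rv (g i) := by
    funext j
    rw [Finset.sum_apply, hy j]
    refine Finset.sum_congr rfl fun i _ => ?_
    rw [Pi.smul_apply, smul_eq_mul, hg]
    show (c j i : ℝ) * q i = q i * ((c j i : ℤ) : ℝ)
    ring
  have hφ : ∀ φ : Fin r → ℤ, rv φ ⬝ᵥ p = 0 → ∀ i, (∑ j, φ j * g i j : ℤ) = 0 := by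
    intro φ h1
    rw [hpg, dot_sum] at h1
    have h2 := hlin (fun i => ∑ j, φ j * g i j) (by
      rw [← h1]
      exact Finset.sum_congr rfl fun i _ => mul_comm _ _)
    exact fun i => congrFun h2 i
  obtain ⟨S, hS⟩ : ∃ S : ℝ, S = ∑ i, ‖rv (g i)‖ := ⟨_, rfl⟩
  have hS0 : 0 ≤ S := by rw [hS]; positivity
  rw [hpg]
  refine Pool.Agent.H32.TN.cone_dio (p := q) (C := {v : Fin m → ℝ | ∑ i, v i • rv (g i) ∈ C}) hlin one_pos
    ((S + 1) / e) ?_ ?_ ?_ ?_
  · show ∑ i, (0 : Fin m → ℝ) i • rv (g i) ∈ C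
    simp only [Pi.zero_apply, zero_smul, Finset.sum_const_zero]
    exact h0
  · intro u hu v hv
    show ∑ i, (u + v) i • rv (g i) ∈ C
    simp only [Pi.add_apply, add_smul, Finset.sum_add_distrib]
    exact hadd _ hu _ hv
  · intro a ha u hu
    show ∑ i, (a • u) i • rv (g i) ∈ C
    simp only [Pi.smul_apply, smul_eq_mul, mul_smul]
    rw [← Finset.smul_sum]
    exact hsmul a ha _ hu
  · intro n x hx hn
    show ∑ i, (n i : ℝ) • rv (g i) ∈ C
    have hxp : 0 < x := lt_of_lt_of_le (by positivity) hx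
    obtain ⟨d, hd⟩ : ∃ d : Fin r → ℤ, d = ∑ i, n i • g i := ⟨_, rfl⟩
    have hrd : rv d = ∑ i, (n i : ℝ) • rv (g i) := by
      funext j
      rw [hd]
      simp [rv, Finset.sum_apply]
    rw [← hrd]
    refine hC d ?_
    have h1 : x⁻¹ • rv d ∈ closure (AmpR ν) := by
      refine hb _ (fun φ h1 => ?_) ?_
      · rw [dotProduct_smul, hrd, dot_sum, Finset.sum_eq_zero, smul_zero]
        intro i _
        rw [hφ φ h1 i, Int.cast_zero, mul_zero]
      · have h2 : x⁻¹ • rv d - p = ∑ i, (x⁻¹ * (n i - x * q i)) • rv (g i) := by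
          rw [hrd, hpg, Finset.smul_sum, ← Finset.sum_sub_distrib]
          refine Finset.sum_congr rfl fun i _ => ?_
          rw [smul_smul, ← sub_smul]
          congr 1
          field_simp
        rw [h2]
        calc ‖∑ i, (x⁻¹ * (n i - x * q i)) • rv (g i)‖ ≤ ∑ i, ‖(x⁻¹ * (n i - x * q i)) • rv (g i)‖ := norm_sum_le _ _
          _ ≤ ∑ i, x⁻¹ * ‖rv (g i)‖ := Finset.sum_le_sum fun i _ => by
              rw [norm_smul, norm_mul, Real.norm_eq_abs, Real.norm_eq_abs, abs_of_pos (inv_pos.2 hxp)]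
              refine mul_le_mul_of_nonneg_right ?_ (norm_nonneg _)
              exact mul_le_of_le_one_right (inv_pos.2 hxp).le (hn i)
          _ = x⁻¹ * S := by rw [← Finset.mul_sum, hS]
          _ < e := by
              rw [inv_mul_lt_iff₀ hxp]
              have h3 : S + 1 ≤ x * e := by rwa [div_le_iff₀ he] at hx
              linarith
    have h2 : x • (x⁻¹ • rv d) ∈ closure (AmpR ν) := by
      rw [cl_eq hX hν] at h1 ⊢
      exact cl_smul hxp.le h1
    rwa [smul_smul, mul_inv_cancel₀ hxp.ne', one_smul] at h2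

/-- the class of `p` is in the convex hull of the rational nef classes -/
theorem ratin_np [CharZero k] [IsAlgClosed k] (hX : IsVar X) (hA : ∃ A : Cart X, Ample A) (hν : NumR ν) {b : LatB X r}
    (hb : ∀ D, cl D = pt b (rv (ci ν D))) (hp : RatIn ν p) : pt b p ∈ NefP X := by
  refine ratin_cone hX hν (C := {v | pt b v ∈ NefP X}) ?_ ?_ ?_ ?_ hp
  · show pt b 0 ∈ NefP X
    rw [pt_zero]
    exact np_zero hX hA
  · intro u hu v hv
    show pt b (u + v) ∈ NefP X
    rw [pt_add]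
    exact np_add hX hA _ _ hu hv
  · intro c hc u hu
    show pt b (c • u) ∈ NefP X
    rw [pt_smul]
    exact np_smul hX hA c hc _ hu
  · intro d hd
    show pt b (rv d) ∈ NefP X
    obtain ⟨D, hD⟩ := ci_surj hν d
    rw [pt_nef hX hb, ← hD, ← hb] at hd
    rw [← hD, ← hb]
    exact subset_convexHull ℝ _ ⟨hd, ratC_cl D⟩

theorem thr_cl (hX : IsVar X) (hν : NumR ν) {A D : Cart X} {s : ℝ} (ht : Ths A D s) {t : ℝ} (hst : s < t) :
    Pool.Agent.H20.TP.cR ν D + t • Pool.Agent.H20.TP.cR ν A ∈ closure (AmpR ν) := by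
  have h1 : ∀ q : ℚ, s < q → Pool.Agent.H20.TP.cR ν D + (q : ℝ) • Pool.Agent.H20.TP.cR ν A ∈ closure (AmpR ν) := by
    intro q hq
    have hd : (0 : ℝ) < q.den := by exact_mod_cast q.den_pos
    have h2 := ht.amp q.num q.den (by exact_mod_cast q.den_pos) (by
      rw [Rat.cast_def, lt_div_iff₀ hd] at hq
      exact_mod_cast hq)
    have h3 := cc_amp hX hν h2
    rw [ci_mul, ci_zpow, ci_zpow, rv_add, rv_smul, rv_smul] at h3
    rw [cl_eq hX hν]
    have h4 := cl_smul (t := (q.den : ℝ)⁻¹) (by positivity) (subset_closure h3)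
    have e : (q.den : ℝ)⁻¹ • ((q.num : ℝ) • rv (ci ν A) + ((q.den : ℤ) : ℝ) • rv (ci ν D)) =
        rv (ci ν D) + (q : ℝ) • rv (ci ν A) := by
      rw [smul_add, smul_smul, smul_smul, Int.cast_natCast, inv_mul_cancel₀ hd.ne', one_smul, add_comm]
      congr 2
      rw [Rat.cast_def]
      field_simp
    rw [e] at h4
    exact h4
  have h2 : Continuous fun t : ℝ => Pool.Agent.H20.TP.cR ν D + t • Pool.Agent.H20.TP.cR ν A := by fun_prop
  have h3 : IsClosed {t : ℝ | Pool.Agent.H20.TP.cR ν D + t • Pool.Agent.H20.TP.cR ν A ∈ closure (AmpR ν)} :=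
    isClosed_closure.preimage h2
  by_contra hcon
  obtain ⟨ε, hε, hball⟩ := Metric.isOpen_iff.1 h3.isOpen_compl t hcon
  obtain ⟨q, hq1, hq2⟩ := exists_rat_btwn (show t < t + ε by linarith)
  have h4 : (q : ℝ) ∈ Metric.ball t ε := by
    rw [Metric.mem_ball, Real.dist_eq, abs_of_pos (by linarith)]
    linarith
  exact hball h4 (h1 q (hst.trans hq1))

theorem thr_nef (hX : IsVar X) (hν : NumR ν) {A D : Cart X} {s : ℝ} (ht : Ths A D s) :
    Pool.Agent.H20.TP.cR ν D + s • Pool.Agent.H20.TP.cR ν A ∈ closure (AmpR ν) := by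
  have h2 : Continuous fun t : ℝ => Pool.Agent.H20.TP.cR ν D + t • Pool.Agent.H20.TP.cR ν A := by fun_prop
  have h3 : IsClosed {t : ℝ | Pool.Agent.H20.TP.cR ν D + t • Pool.Agent.H20.TP.cR ν A ∈ closure (AmpR ν)} :=
    isClosed_closure.preimage h2
  by_contra hcon
  obtain ⟨ε, hε, hball⟩ := Metric.isOpen_iff.1 h3.isOpen_compl s hcon
  have h4 : s + ε / 2 ∈ Metric.ball s ε := by
    rw [Metric.mem_ball, Real.dist_eq, add_sub_cancel_left, abs_of_pos (by linarith)]
    linarith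
  exact hball h4 (thr_cl hX hν ht (by linarith))

/-- `D + s A` is not in the interior of its rational span if the threshold `s` is irrational -/
theorem ratin_thr (hX : IsVar X) (hν : NumR ν) {A D : Cart X} {s : ℝ} (ht : Ths A D s) :
    ¬ RatIn ν (Pool.Agent.H20.TP.cR ν D + s • Pool.Agent.H20.TP.cR ν A) := by
  rintro ⟨e, he, hb⟩
  obtain ⟨ε, hε⟩ : ∃ ε : ℝ, ε = e / (2 * (‖Pool.Agent.H20.TP.cR ν A‖ + 1)) := ⟨_, rfl⟩
  have hε0 : 0 < ε := by rw [hε]; positivity
  have h1 : Pool.Agent.H20.TP.cR ν D + (s - ε) • Pool.Agent.H20.TP.cR ν A ∈ closure (AmpR ν) := by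
    refine hb _ (fun φ hφ => ?_) ?_
    · obtain ⟨u, hu⟩ : ∃ u : ℤ, rv φ ⬝ᵥ rv (ci ν D) = u := ⟨∑ i, φ i * ci ν D i, by
        unfold dotProduct rv
        push_cast
        rfl⟩
      obtain ⟨v, hv⟩ : ∃ v : ℤ, rv φ ⬝ᵥ rv (ci ν A) = v := ⟨∑ i, φ i * ci ν A i, by
        unfold dotProduct rv
        push_cast
        rfl⟩
      rw [dotProduct_add, dotProduct_smul, hu, hv, smul_eq_mul] at hφ ⊢
      have hv0 : v = 0 := by
        by_contra hv0
        refine ht.irr ⟨-u / v, ?_⟩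
        have hv1 : (v : ℝ) ≠ 0 := by exact_mod_cast hv0
        push_cast
        rw [div_eq_iff hv1]
        linarith
      rw [hv0, Int.cast_zero, mul_zero] at hφ ⊢
      exact hφ
    · have e1 : Pool.Agent.H20.TP.cR ν D + (s - ε) • Pool.Agent.H20.TP.cR ν A -
          (Pool.Agent.H20.TP.cR ν D + s • Pool.Agent.H20.TP.cR ν A) = -(ε • Pool.Agent.H20.TP.cR ν A) := by
        rw [sub_smul]
        abel
      rw [e1, norm_neg, norm_smul, Real.norm_eq_abs, abs_of_pos hε0]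
      have h2 := norm_nonneg (Pool.Agent.H20.TP.cR ν A)
      calc ε * ‖Pool.Agent.H20.TP.cR ν A‖ ≤ ε * (‖Pool.Agent.H20.TP.cR ν A‖ + 1) :=
            mul_le_mul_of_nonneg_left (by linarith) hε0.le
        _ = e / 2 := by rw [hε]; field_simp
        _ < e := by linarith
  obtain ⟨q, hq1, hq2⟩ := exists_rat_btwn (show s - ε < s by linarith)
  have hd : (0 : ℝ) < q.den := by exact_mod_cast q.den_pos
  refine ht.out q.num q.den (by exact_mod_cast q.den_pos) (by
    rw [Rat.cast_def, div_lt_iff₀ hd] at hq2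
    exact_mod_cast hq2) ?_
  refine cc_ample (ν := ν) ?_
  rw [cl_eq hX hν] at h1
  have h3 := (Pool.Agent.H39.TZ.oc_cc hX hν).add_cl (cc_smul (c := (q : ℝ) - (s - ε)) (by linarith) (cc_amp hX hν ht.hA)) h1
  have h4 := cc_smul hd h3
  have e1 : (q.den : ℝ) • (((q : ℝ) - (s - ε)) • rv (ci ν A) +
      (Pool.Agent.H20.TP.cR ν D + (s - ε) • Pool.Agent.H20.TP.cR ν A)) =
      rv (ci ν (A ^ q.num * D ^ (q.den : ℤ))) := by
    rw [ci_mul, ci_zpow, ci_zpow, rv_add, rv_smul, rv_smul, Int.cast_natCast]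
    have e2 : (q.den : ℝ) * (q : ℝ) = q.num := by
      rw [Rat.cast_def]
      field_simp
    rw [← e2]
    module
  rw [e1] at h4
  exact h4

end Pool.Agent.H39.RT
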